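import Pool.Agent.Lib.MP_07b136_ag.Defs
import Pool.Agent.Lib.MP_07b136_ag.Main

open Pool.Agent.Lib.MP_07b136_ag

universe u

namespace Pool.Agent.Results.MP_07b136_ag.DisjointComponent

theorem result (k : Type u) [Field k] [IsAlgClosed k] :
    ∃ C ∈ @irreducibleComponents _ (zariski k 1 3 6), Disjoint C (slip k 1 3 6) :=
  exists_component_disjoint k

end Pool.Agent.Results.MP_07b136_ag.DisjointComponent
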