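import Mathlib
import Pool.Agent.Lib.MP_07b136_ag.SchDefs
import Pool.Agent.Lib.MP_07b136_ag.SchMain

open AlgebraicGeometry Pool.Agent.Lib.MP_07b136_ag.Sch

universe u

namespace Pool.Agent.Results.MP_07b136_ag.SchemeAllDegrees

theorem result (k : Type u) [Field k] [IsAlgClosed k] (n d r : ℕ) (hn : 1 ≤ n) (hd : 4 ≤ d)
    (hr : 3 ≤ r) (X : Scheme.{u}) (s : X ⟶ Spec (CommRingCat.of k))
    (R : Represents n d r s) :
    ∃ C ∈ irreducibleComponents X, Disjoint C R.slip :=
  scheme_main hn hd hr R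

end Pool.Agent.Results.MP_07b136_ag.SchemeAllDegrees
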